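import Pool.Agent.helper18.HG.Spec

set_option autoImplicit false

namespace Pool.Agent.helper18.HG

theorem EVA (hEVM : EVM_stmt) : EVA_stmt := by
  intro G z v A hG
  obtain ⟨h1, h2, _⟩ := hEVM z
  have hpow : ∀ i : ℕ, EV (G ^ i) z (v ^ i) := by
    intro i
    induction i with
    | zero =>
      have h := h2 1
      simpa using h
    | succ i ih =>
      rw [pow_succ, pow_succ]
      exact (h1 _ _ _ _ ih hG).2
  have hterm : ∀ (i : ℕ) (a : Polynomial ℤ),
      EV ((a : PowerSeries ℤ) * G ^ i) z (Polynomial.aeval z a * v ^ i) :=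
    fun i a => (h1 _ _ _ _ (h2 a) (hpow i)).2
  have h0 : EV 0 z 0 := by
    have h := h2 0
    simpa using h
  have hsum : ∀ s : Finset ℕ,
      EV (∑ i ∈ s, ((A.coeff i : Polynomial ℤ) : PowerSeries ℤ) * G ^ i) z
        (∑ i ∈ s, Polynomial.aeval z (A.coeff i) * v ^ i) := by
    intro s
    induction s using Finset.induction_on with
    | empty => simpa using h0
    | insert i s hi ih =>
      rw [Finset.sum_insert hi, Finset.sum_insert hi]
      exact (h1 _ _ _ _ (hterm _ _) ih).1
  have h3 : ev G A = ∑ i ∈ A.support, ((A.coeff i : Polynomial ℤ) : PowerSeries ℤ) * G ^ i := by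
    unfold ev
    rw [Polynomial.eval₂_eq_sum, Polynomial.sum_def]
    rfl
  rw [h3, Polynomial.sum_def]
  exact hsum A.support

end Pool.Agent.helper18.HG
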